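import Pool.Agent.Q17.AM.Stm

set_option autoImplicit false

open scoped Classical

noncomputable section

namespace Pool.Agent.Q166.AM

open Pool.Agent.H254R3.IN hiding NN
open Pool.Agent.Q17.WR
open Pool.Agent.Q17.AM

variable {G : Type} [Group G] {r : ℕ} [Fact r.Prime]

lemma mul_left' (x y : Wc G r) (ω : Cy r) :
    (x * y).left ω = x.left ω * y.left (x.right⁻¹ * ω) := by
  rw [SemidirectProduct.mul_left]; rfl

lemma inv_left' (x : Wc G r) (ω : Cy r) :
    (x⁻¹).left ω = (x.left (x.right * ω))⁻¹ := by
  rw [SemidirectProduct.inv_left]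
  change (x.left⁻¹) ((x.right⁻¹)⁻¹ * ω) = _
  rw [inv_inv]; rfl

lemma conj_left (x y : Wc G r) (hy : y.right = 1) (ω : Cy r) :
    (x * y * x⁻¹).left ω = x.left ω * y.left (x.right⁻¹ * ω) * (x.left ω)⁻¹ := by
  rw [mul_left', mul_left', inv_left', SemidirectProduct.mul_right, hy, mul_one,
    mul_inv_cancel_left]

lemma conj_right (x y : Wc G r) : (x * y * x⁻¹).right = y.right := by
  rw [SemidirectProduct.mul_right, SemidirectProduct.mul_right, SemidirectProduct.inv_right]
  rw [mul_comm x.right, mul_inv_cancel_right]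

lemma mem_Dw (D : Subgroup G) (x : Wc G r) : x ∈ Dw r D ↔ x.right = 1 ∧ ∀ ω, x.left ω ∈ D :=
  Iff.rfl

/-- the element of the base group with all components `1` but one -/
def sgl (ω₀ : Cy r) (g : G) : Wc G r := ⟨fun ω => if ω = ω₀ then g else 1, 1⟩

lemma mem_norm_Dw (D : Subgroup G) (x : Wc G r) :
    x ∈ NN (Dw r D) ↔ ∀ ω, x.left ω ∈ NN D := by
  rw [Subgroup.mem_normalizer_iff]
  constructor
  · intro h ω
    rw [Subgroup.mem_normalizer_iff]
    intro g
    have h1 := h (sgl (x.right⁻¹ * ω) g)
    have h2 : sgl (r := r) (x.right⁻¹ * ω) g ∈ Dw r D ↔ g ∈ D := by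
      rw [mem_Dw]
      constructor
      · intro hh
        have := hh.2 (x.right⁻¹ * ω)
        simpa [sgl] using this
      · intro hg
        refine ⟨rfl, fun ω' => ?_⟩
        simp only [sgl]
        split
        · exact hg
        · exact D.one_mem
    have h3 : x * sgl (r := r) (x.right⁻¹ * ω) g * x⁻¹ ∈ Dw r D ↔
        x.left ω * g * (x.left ω)⁻¹ ∈ D := by
      rw [mem_Dw]
      constructor
      · intro hh
        have := hh.2 ω
        rw [conj_left _ _ rfl] at this
        simpa [sgl] using this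
      · intro hg
        refine ⟨by rw [conj_right]; rfl, fun ω' => ?_⟩
        rw [conj_left _ _ rfl]
        simp only [sgl]
        split
        · rename_i he
          rw [mul_left_cancel he]
          exact hg
        · simp [D.one_mem]
    change g ∈ (D : Set G) ↔ _
    change g ∈ D ↔ x.left ω * g * (x.left ω)⁻¹ ∈ D
    rw [← h2, ← h3]
    exact h1
  · intro h y
    change y ∈ Dw r D ↔ x * y * x⁻¹ ∈ Dw r D
    rw [mem_Dw, mem_Dw, conj_right]
    refine and_congr_right fun hy => ?_
    have key : ∀ ω, x.left ω * y.left (x.right⁻¹ * ω) * (x.left ω)⁻¹ ∈ D ↔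
        y.left (x.right⁻¹ * ω) ∈ D := fun ω =>
      ((Subgroup.mem_normalizer_iff.mp (h ω)) (y.left (x.right⁻¹ * ω))).symm
    constructor
    · intro hh ω
      rw [conj_left _ _ hy, key]
      exact hh _
    · intro hh ω
      have := hh (x.right * ω)
      rw [conj_left _ _ hy, key, inv_mul_cancel_left] at this
      exact this

theorem t_TRN : Pool.Agent.Q17.AM.S_TRN := by
  intro G _ r _ D
  refine ⟨{ toFun := fun x => ⟨⟨fun ω => (x.left ω : G), x.right⟩,
              (mem_norm_Dw D _).mpr fun ω => (x.left ω).2⟩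
            invFun := fun y => ⟨fun ω => ⟨y.1.left ω, (mem_norm_Dw D _).mp y.2 ω⟩, y.1.right⟩
            left_inv := fun x => rfl
            right_inv := fun y => rfl
            map_mul' := ?_ }, fun x => rfl, fun x ω => rfl⟩
  intro x y
  apply Subtype.ext
  apply SemidirectProduct.ext
  · funext ω
    rfl
  · rfl

end Pool.Agent.Q166.AM
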