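import Pool.Agent.Q17.AM.Stm

set_option autoImplicit false

open scoped Classical

noncomputable section

namespace Pool.Agent.Q166.AM

open Pool.Agent.H254R3.IN hiding NN
open Pool.Agent.Q17.WR
open Pool.Agent.Q17.AM

lemma inv_mem_of_not_nonunits {O : ValuationSubring ℂ} {u : ℂ} (h : u ∉ O.nonunits) : u⁻¹ ∈ O := by
  rw [ValuationSubring.mem_nonunits_iff, not_lt] at h
  rw [← ValuationSubring.valuation_le_one_iff, map_inv₀]
  exact inv_le_one_of_one_le₀ h

lemma nonunits_mul {O : ValuationSubring ℂ} {a b : ℂ} (ha : a ∈ O) (hb : b ∈ O.nonunits) :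
    a * b ∈ O.nonunits := by
  rw [ValuationSubring.mem_nonunits_iff] at hb ⊢
  rw [← ValuationSubring.valuation_le_one_iff] at ha
  rw [map_mul]
  calc O.valuation a * O.valuation b ≤ 1 * O.valuation b := mul_le_mul_left ha _
    _ < 1 := by rw [one_mul]; exact hb

theorem t_POS : Pool.Agent.Q17.AM.S_POS := by
  intro G _ _ p _ O hp B hB D hD hne θ hθ
  by_contra hu
  have hθi : IsIrr θ := hB.irr θ hθ
  have hG : (Nat.card G : ℂ) ≠ 0 := cardG_ne G
  have hv : ((Nat.card G : ℂ) / θ 1)⁻¹ ∈ O := inv_mem_of_not_nonunits hu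
  rw [inv_div] at hv
  -- the idempotent of θ
  let E : G → ℂ := fun g => θ 1 / (Nat.card G : ℂ) * θ g⁻¹
  have hEcl : IsCl E := by
    intro g y
    have e : (y * g * y⁻¹)⁻¹ = y * g⁻¹ * y⁻¹ := by group
    simp only [E]
    rw [e, hθi.conj]
  have hEO : ∀ g, E g ∈ O := fun g => O.mul_mem _ _ hv (hθi.val_mem O _)
  have hOm : ∀ χ : G → ℂ, IsIrr χ → Om E χ = if χ = θ then 1 else 0 := by
    intro χ hχ
    unfold Om
    have h1 : ∑ g, E g * χ g = θ 1 / (Nat.card G : ℂ) * ∑ g, χ g * θ g⁻¹ := by
      rw [Finset.mul_sum]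
      exact Finset.sum_congr rfl fun g _ => by simp only [E]; ring
    rw [h1, orth_sum hχ hθi]
    split_ifs with h
    · subst h
      field_simp [hχ.one_ne]
    · simp
  have hBθ : ∀ χ, χ ∈ B ↔ χ = θ := by
    intro χ
    constructor
    · intro hχ
      by_contra hc
      have h1 := (red_Om (O := O) (hB.irr χ hχ) hEcl hEO).2
      have h2 := (red_Om (O := O) hθi hEcl hEO).2
      have h3 : red O (Om E χ) = red O (Om E θ) := by
        rw [h1, h2]
        exact Finset.sum_congr rfl fun K _ => by rw [hB.red_eq hχ hθ]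
      rw [hOm χ (hB.irr χ hχ), hOm θ hθi, if_neg hc, if_pos rfl, red_zero, red_one] at h3
      exact zero_ne_one h3
    · rintro rfl; exact hθ
  obtain ⟨x, ⟨P, hP⟩, -, hcf⟩ := hD
  apply hcf
  have hbc : blockCoeff B x = θ 1 / (Nat.card G : ℂ) * θ x⁻¹ := by
    rw [blockCoeff_eq hB.irr]
    have : (Helper884.IC.Irr G).filter (· ∈ B) = {θ} := by
      ext χ
      simp only [Finset.mem_filter, Finset.mem_singleton, mem_Irr, hBθ]
      constructor
      · exact fun h => h.2
      · rintro rfl; exact ⟨hθi, rfl⟩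
    rw [this, Finset.sum_singleton]
    ring
  rw [hbc]
  apply nonunits_mul hv
  -- p divides the order of the centraliser
  have hpc : p ∣ Nat.card (Subgroup.centralizer ({x} : Set G)) := by
    by_contra hnd
    apply hne
    have hPcard := P.card_eq_multiplicity
    rw [Nat.factorization_eq_zero_of_not_dvd hnd, pow_zero] at hPcard
    have hPb : (P : Subgroup (Subgroup.centralizer ({x} : Set G))) = ⊥ :=
      Subgroup.eq_bot_of_card_eq _ hPcard
    rw [hP, hPb, Subgroup.map_bot]
  have hcx : Nat.card (Subgroup.centralizer ({x⁻¹} : Set G)) =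
      Nat.card (Subgroup.centralizer ({x} : Set G)) := by
    congr 2
    ext y
    simp only [Subgroup.mem_centralizer_singleton_iff]
    constructor
    · intro h
      have : Commute y x⁻¹ := h
      exact (Commute.inv_right_iff.mp this)
    · intro h
      have : Commute y x := h
      exact (Commute.inv_right_iff.mpr this)
  have hval := hθi.val_eq x⁻¹
  rw [hcx] at hval
  obtain ⟨m, hm⟩ := hpc
  have h4 : θ x⁻¹ = (omega θ x⁻¹ * (θ 1 / (Nat.card G : ℂ)) * (m : ℂ)) * (p : ℂ) := by
    rw [hval, hm]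
    push_cast
    ring
  rw [h4]
  apply nonunits_mul _ hp
  exact O.mul_mem _ _ (O.mul_mem _ _ (hθi.omega_mem O _) hv) (natCast_mem' m)

end Pool.Agent.Q166.AM
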