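import Pool.Agent.Q166.AM.TRN
import Pool.Agent.Q166.AM.POS

set_option autoImplicit false

open scoped Classical

noncomputable section

namespace Pool.Agent.Q166.AM

open Pool.Agent.H254R3.IN hiding NN
open Pool.Agent.Q17.WR
open Pool.Agent.Q17.AM

set_option linter.unusedSectionVars false

variable {G : Type} [Group G] [Fintype G] {r : ℕ} [Fact r.Prime]

instance instFWc : Fintype (Wc G r) := Fintype.ofEquiv _ SemidirectProduct.equivProd.symm

lemma card_Cy : Fintype.card (Cy r) = r := by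
  rw [Fintype.card_multiplicative]
  exact ZMod.card r

lemma sum_base (F : Wc G r → ℂ) (h : ∀ x, x.right ≠ 1 → F x = 0) :
    ∑ x, F x = ∑ m : Cy r → G, F ⟨m, 1⟩ := by
  rw [← Equiv.sum_comp (SemidirectProduct.equivProd.symm) F, Fintype.sum_prod_type_right,
    Finset.sum_eq_single 1]
  · rfl
  · intro b _ hb
    exact Finset.sum_eq_zero fun m _ => h _ hb
  · intro h1
    exact absurd (Finset.mem_univ _) h1

lemma sum_prod (b : G → ℂ) (f : Cy r → G → ℂ) :
    ∑ m : Cy r → G, (∏ ω, b (m ω)) * prf f m = ∏ ω, ∑ g, b g * f ω g := by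
  rw [Finset.prod_univ_sum, Fintype.piFinset_univ]
  refine Finset.sum_congr rfl fun m _ => ?_
  unfold prf
  rw [← Finset.prod_mul_distrib]

/-- the class function with the coefficients of the block idempotent -/
def EE (r : ℕ) [Fact r.Prime] (B : Set (G → ℂ)) (x : Wc G r) : ℂ :=
  if x.right = 1 then ∏ ω, blockCoeff B (x.left ω) else 0

variable {B : Set (G → ℂ)}

lemma EE_cl (hB : ∀ χ ∈ B, IsIrr χ) : IsCl (EE r B) := by
  intro g y
  unfold EE
  rw [conj_right]
  split_ifs with h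
  · have h1 : ∀ ω, blockCoeff B ((y * g * y⁻¹).left ω) = blockCoeff B (g.left (y.right⁻¹ * ω)) := by
      intro ω
      rw [conj_left _ _ h, blockCoeff_cl hB]
    rw [Finset.prod_congr rfl fun ω _ => h1 ω]
    exact Equiv.prod_comp (Equiv.mulLeft (y.right⁻¹)) (fun ω => blockCoeff B (g.left ω))
  · rfl

lemma EE_mem {O : ValuationSubring ℂ} (hB : IsBlock O B) (x : Wc G r) : EE r B x ∈ O := by
  unfold EE
  split_ifs
  · exact prod_mem fun ω _ => blockCoeff_mem hB _
  · exact O.zero_mem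

lemma Om_fac (hB : ∀ χ ∈ B, IsIrr χ) {θ : G → ℂ} (hθ : IsIrr θ) :
    ∑ g, blockCoeff B g * θ g = (if θ ∈ B then 1 else 0) * θ 1 := by
  have h := Om_blockCoeff hB hθ
  unfold Om at h
  rw [div_eq_iff hθ.one_ne] at h
  exact h

lemma nch_one (f : Cy r → G → ℂ) : nch f (1 : Wc G r) = r * ∏ ω, f ω 1 := by
  have h1 : ∀ a : Cy r, prf (fun ω => f (a * ω)) ((1 : Wc G r).left) = ∏ ω, f ω 1 := by
    intro a
    exact Equiv.prod_comp (Equiv.mulLeft a) (fun ω => f ω 1)
  unfold nch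
  rw [if_pos SemidirectProduct.one_right, Finset.sum_congr rfl fun a _ => h1 a, Finset.sum_const,
    Finset.card_univ, card_Cy, nsmul_eq_mul]

lemma cch_one (θ : G → ℂ) (l : Cy r →* ℂˣ) : cch θ l (1 : Wc G r) = ∏ _ω : Cy r, θ 1 := by
  unfold cch
  rw [if_pos SemidirectProduct.one_right]
  rfl

lemma r_ne : (r : ℂ) ≠ 0 := by
  exact_mod_cast (Fact.out : r.Prime).ne_zero

lemma Om_EE_nch (hB : ∀ χ ∈ B, IsIrr χ) {f : Cy r → G → ℂ} (hf : ∀ ω, IsIrr (f ω)) :
    Om (EE r B) (nch f) = ∏ ω, if f ω ∈ B then 1 else 0 := by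
  have h1 : ∑ x : Wc G r, EE r B x * nch f x =
      r * ((∏ ω, if f ω ∈ B then (1 : ℂ) else 0) * ∏ ω, f ω 1) := by
    rw [sum_base _ (fun x hx => by unfold EE; rw [if_neg hx, zero_mul])]
    have h2 : ∀ m : Cy r → G, EE r B (⟨m, 1⟩ : Wc G r) * nch f (⟨m, 1⟩ : Wc G r) =
        ∑ a : Cy r, (∏ ω, blockCoeff B (m ω)) * prf (fun ω => f (a * ω)) m := by
      intro m
      unfold EE nch
      rw [if_pos rfl, if_pos rfl, Finset.mul_sum]
    rw [Finset.sum_congr rfl fun m _ => h2 m, Finset.sum_comm]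
    have h3 : ∀ a : Cy r, ∑ m : Cy r → G,
        (∏ ω, blockCoeff B (m ω)) * prf (fun ω => f (a * ω)) m =
        (∏ ω, if f ω ∈ B then (1 : ℂ) else 0) * ∏ ω, f ω 1 := by
      intro a
      rw [sum_prod, Finset.prod_congr rfl fun ω _ => Om_fac hB (hf (a * ω)),
        ← Finset.prod_mul_distrib]
      exact Equiv.prod_comp (Equiv.mulLeft a) (fun ω => (if f ω ∈ B then (1 : ℂ) else 0) * f ω 1)
    rw [Finset.sum_congr rfl fun a _ => h3 a, Finset.sum_const, Finset.card_univ, card_Cy,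
      nsmul_eq_mul]
  unfold Om
  rw [h1, nch_one]
  have h4 : (∏ ω, f ω 1) ≠ 0 := Finset.prod_ne_zero_iff.mpr fun ω _ => (hf ω).one_ne
  have h5 : (r : ℂ) ≠ 0 := r_ne
  field_simp

lemma Om_EE_cch (hB : ∀ χ ∈ B, IsIrr χ) {θ : G → ℂ} (hθ : IsIrr θ) (l : Cy r →* ℂˣ) :
    Om (EE r B) (cch θ l) = if θ ∈ B then 1 else 0 := by
  have h1 : ∑ x : Wc G r, EE r B x * cch θ l x =
      (∏ _ω : Cy r, if θ ∈ B then (1 : ℂ) else 0) * ∏ _ω : Cy r, θ 1 := by
    rw [sum_base _ (fun x hx => by unfold EE; rw [if_neg hx, zero_mul])]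
    have h2 : ∀ m : Cy r → G, EE r B (⟨m, 1⟩ : Wc G r) * cch θ l (⟨m, 1⟩ : Wc G r) =
        (∏ ω, blockCoeff B (m ω)) * prf (fun _ : Cy r => θ) m := by
      intro m
      unfold EE cch prf
      rw [if_pos rfl, if_pos rfl]
    rw [Finset.sum_congr rfl fun m _ => h2 m, sum_prod,
      Finset.prod_congr rfl fun ω _ => Om_fac hB hθ, Finset.prod_mul_distrib]
  unfold Om
  rw [h1, cch_one]
  have h4 : (∏ _ω : Cy r, θ 1) ≠ 0 := Finset.prod_ne_zero_iff.mpr fun ω _ => hθ.one_ne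
  rw [mul_div_assoc, div_self h4, mul_one]
  split_ifs with h
  · simp
  · exact Finset.prod_eq_zero (Finset.mem_univ (1 : Cy r)) rfl

lemma LX_irr (hC : S_CLS) (hB : ∀ χ ∈ B, IsIrr χ) : ∀ χ ∈ LX (r := r) B, IsIrr χ := by
  rintro χ (⟨f, hf, hn, rfl⟩ | ⟨θ, hθ, l, rfl⟩)
  · exact (hC G r).1 f (fun ω => hB _ (hf ω)) hn
  · exact (hC G r).2.1 θ (hB _ hθ) l

lemma nch_mem_LX (hC : S_CLS) (hB : ∀ χ ∈ B, IsIrr χ) {f : Cy r → G → ℂ} (hf : ∀ ω, IsIrr (f ω))
    (hn : Ncn f) : nch f ∈ LX (r := r) B ↔ ∀ ω, f ω ∈ B := by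
  constructor
  · rintro (⟨f', hf', hn', he⟩ | ⟨θ, hθ, l, he⟩)
    · obtain ⟨a, ha⟩ := (hC G r).2.2.2.1 f' f (fun ω => hB _ (hf' ω)) hf hn' he.symm
      intro ω
      rw [ha]
      exact hf' _
    · exact absurd he ((hC G r).2.2.2.2.2 f θ l hf hn (hB _ hθ))
  · exact fun h => Or.inl ⟨f, h, hn, rfl⟩

lemma cch_mem_LX (hC : S_CLS) (hB : ∀ χ ∈ B, IsIrr χ) {θ : G → ℂ} (hθ : IsIrr θ)
    (l : Cy r →* ℂˣ) : cch θ l ∈ LX (r := r) B ↔ θ ∈ B := by
  constructor
  · rintro (⟨f', hf', hn', he⟩ | ⟨θ', hθ', l', he⟩)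
    · exact absurd he.symm ((hC G r).2.2.2.2.2 f' θ l (fun ω => hB _ (hf' ω)) hn' hθ)
    · rw [((hC G r).2.2.2.2.1 θ θ' l l' hθ (hB _ hθ') he).1]
      exact hθ'
  · exact fun h => Or.inr ⟨θ, h, l, rfl⟩

lemma Om_EE (hC : S_CLS) (hB : ∀ χ ∈ B, IsIrr χ) {ψ : Wc G r → ℂ} (hψ : IsIrr ψ) :
    Om (EE r B) ψ = if ψ ∈ LX (r := r) B then 1 else 0 := by
  rcases (hC G r).2.2.1 ψ hψ with ⟨f, hf, hn, rfl⟩ | ⟨θ, hθ, l, rfl⟩
  · rw [Om_EE_nch hB hf]
    by_cases h : ∀ ω, f ω ∈ B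
    · rw [if_pos ((nch_mem_LX hC hB hf hn).mpr h)]
      exact Finset.prod_eq_one fun ω _ => if_pos (h ω)
    · rw [if_neg (fun h' => h ((nch_mem_LX hC hB hf hn).mp h'))]
      push Not at h
      obtain ⟨ω, hω⟩ := h
      exact Finset.prod_eq_zero (Finset.mem_univ ω) (if_neg hω)
  · rw [Om_EE_cch hB hθ]
    by_cases h : θ ∈ B
    · rw [if_pos h, if_pos ((cch_mem_LX hC hB hθ l).mpr h)]
    · rw [if_neg h, if_neg (fun h' => h ((cch_mem_LX hC hB hθ l).mp h'))]

lemma bc_LX (hC : S_CLS) (hB : ∀ χ ∈ B, IsIrr χ) : blockCoeff (LX (r := r) B) = EE r B := by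
  apply eq_of_Om (blockCoeff_cl (LX_irr hC hB)) (EE_cl hB)
  intro χ hχ
  rw [Om_blockCoeff (LX_irr hC hB) hχ, Om_EE hC hB hχ]

lemma l_mem (O : ValuationSubring ℂ) (l : Cy r →* ℂˣ) (a : Cy r) : ((l a : ℂˣ) : ℂ) ∈ O := by
  apply mem_of_isIntegral
  have h1 : a ^ r = 1 := by
    have := pow_card_eq_one (x := a)
    rwa [card_Cy] at this
  have h2 : ((l a : ℂˣ) : ℂ) ^ r = 1 := by
    rw [← Units.val_pow_eq_pow_val, ← map_pow, h1, map_one, Units.val_one]
  exact IsIntegral.of_pow (Fact.out : r.Prime).pos (by rw [h2]; exact isIntegral_one)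

lemma red_prod {O : ValuationSubring ℂ} {ι : Type*} (s : Finset ι) (f : ι → ℂ)
    (h : ∀ i ∈ s, f i ∈ O) : red O (∏ i ∈ s, f i) = ∏ i ∈ s, red O (f i) := by
  induction s using Finset.induction_on with
  | empty => simpa using red_one
  | insert a s ha ih =>
    have h1 : ∀ i ∈ s, f i ∈ O := fun i hi => h i (Finset.mem_insert_of_mem hi)
    rw [Finset.prod_insert ha, Finset.prod_insert ha,
      red_mul (h a (Finset.mem_insert_self a s)) (prod_mem h1), ih h1]

section red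

variable {O : ValuationSubring ℂ} {p : ℕ} [Fact p.Prime]

/-- the reduction of the central characters in `LX B` -/
lemma red_LX (hC : S_CLS) (hL : S_CCL) (hpr : p ≠ r) (hp : (p : ℂ) ∈ O.nonunits)
    (hB : IsBlock O B) (hP : Pos O B) {θ₀ : G → ℂ} (h0 : θ₀ ∈ B) (x : Wc G r) :
    ∃ c : RF O, (x.right = 1 → ∃ n : ℕ, (n : RF O) ≠ 0 ∧
      c = (n : RF O) * ∏ ω, red O (omega θ₀ (x.left ω))) ∧
      ∀ χ ∈ LX (r := r) B, red O (omega χ x) = c := by
  have hr0 : ((r : ℕ) : RF O) ≠ 0 := by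
    rw [← red_natCast]
    intro h
    rw [red_nat_eq_zero_iff hp] at h
    exact hpr ((Nat.prime_dvd_prime_iff_eq Fact.out Fact.out).mp h)
  by_cases hx : x.right = 1
  · obtain ⟨n, -, hn, hf, hθ⟩ := (hL G r).1 x hx
    refine ⟨(n : RF O) * ∏ ω, red O (omega θ₀ (x.left ω)), fun _ => ⟨n, ?_, rfl⟩, ?_⟩
    · rcases hn with rfl | rfl
      · simp
      · exact hr0
    · rintro χ (⟨f, hf', hn', rfl⟩ | ⟨θ, hθ', l, rfl⟩)
      · have h1 := hf f
        have hirr : IsIrr (nch f : Wc G r → ℂ) := LX_irr hC hB.irr _ (Or.inl ⟨f, hf', hn', rfl⟩)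
        have hmem : ∀ (a ω : Cy r), omega (f (a * ω)) (x.left ω) ∈ O := fun a ω =>
          (hB.irr _ (hf' _)).omega_mem O _
        have h2 := congrArg (red O) h1
        rw [red_mul (natCast_mem' r) (hirr.omega_mem O x), red_mul (natCast_mem' n)
          (sum_mem' _ _ fun a _ => prod_mem fun ω _ => hmem a ω), red_sum _ _
          (fun a _ => prod_mem fun ω _ => hmem a ω)] at h2
        have h3 : ∀ a : Cy r, red O (∏ ω, omega (f (a * ω)) (x.left ω)) =
            ∏ ω, red O (omega θ₀ (x.left ω)) := by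
          intro a
          rw [red_prod _ _ (fun ω _ => hmem a ω)]
          exact Finset.prod_congr rfl fun ω _ => hB.red_eq (hf' _) h0 _
        rw [Finset.sum_congr rfl fun a _ => h3 a, Finset.sum_const, Finset.card_univ, card_Cy,
          nsmul_eq_mul, red_natCast, red_natCast, mul_left_comm] at h2
        exact mul_left_cancel₀ hr0 h2
      · rw [hθ θ l, red_mul (natCast_mem' n)
          (prod_mem fun ω _ => (hB.irr _ hθ').omega_mem O _), red_prod _ _
          (fun ω _ => (hB.irr _ hθ').omega_mem O _), red_natCast]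
        congr 1
        exact Finset.prod_congr rfl fun ω _ => hB.red_eq hθ' h0 _
  · refine ⟨0, fun h => absurd h hx, ?_⟩
    rintro χ (⟨f, hf', hn', rfl⟩ | ⟨θ, hθ', l, rfl⟩)
    · rw [((hL G r).2 x hx).1 f, red_zero]
    · have hi := hB.irr _ hθ'
      rw [((hL G r).2 x hx).2 θ l hi.one_ne]
      apply red_eq_zero
      have h1 : (Nat.card G : ℂ) / θ 1 ∈ O.nonunits := hP θ hθ'
      have h2 : r - 1 ≠ 0 := by
        have := (Fact.out : r.Prime).two_le
        omega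
      have h3 : ((Nat.card G : ℂ) / θ 1) ^ (r - 1) ∈ O.nonunits := by
        obtain ⟨k, hk⟩ := Nat.exists_eq_succ_of_ne_zero h2
        rw [hk, pow_succ]
        exact nonunits_mul (pow_mem (nonunits_mem h1) k) h1
      have h4 := nonunits_mul (l_mem O l x.right) h3
      have h5 := nonunits_mul (hi.omega_mem O ((x ^ r).left 1)) h4
      rwa [mul_comm] at h5

end red

/-- the constant element of the base group -/
def cst (r : ℕ) (x₀ : G) : Wc G r := ⟨fun _ => x₀, 1⟩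

lemma mem_cent_cst (x₀ : G) (y : Wc G r) :
    y ∈ Subgroup.centralizer ({cst r x₀} : Set (Wc G r)) ↔
      ∀ ω, y.left ω ∈ Subgroup.centralizer ({x₀} : Set G) := by
  simp only [Subgroup.mem_centralizer_singleton_iff]
  constructor
  · intro h ω
    have h1 := congrArg (fun z : Wc G r => z.left ω) h
    simp only [mul_left'] at h1
    simpa [cst] using h1
  · intro h
    apply SemidirectProduct.ext
    · funext ω
      have := h ω
      simp only [mul_left']
      simpa [cst] using this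
    · simp [cst]

lemma card_cent_cst (x₀ : G) : Nat.card (Subgroup.centralizer ({cst r x₀} : Set (Wc G r))) =
    Nat.card (Subgroup.centralizer ({x₀} : Set G)) ^ r * r := by
  have e : Subgroup.centralizer ({cst r x₀} : Set (Wc G r)) ≃
      (Cy r → Subgroup.centralizer ({x₀} : Set G)) × Cy r :=
    { toFun := fun y => (fun ω => ⟨y.1.left ω, (mem_cent_cst x₀ y.1).mp y.2 ω⟩, y.1.right)
      invFun := fun z => ⟨⟨fun ω => (z.1 ω : G), z.2⟩, (mem_cent_cst x₀ _).mpr fun ω => (z.1 ω).2⟩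
      left_inv := fun y => rfl
      right_inv := fun z => rfl }
  rw [Nat.card_congr e, Nat.card_prod, Nat.card_fun, Nat.card_eq_fintype_card (α := Cy r), card_Cy]

lemma card_Dw (D : Subgroup G) : Nat.card (Dw r D) = Nat.card D ^ r := by
  have e : Dw r D ≃ (Cy r → D) :=
    { toFun := fun y ω => ⟨y.1.left ω, y.2.2 ω⟩
      invFun := fun z => ⟨⟨fun ω => (z ω : G), 1⟩, rfl, fun ω => (z ω).2⟩
      left_inv := by
        rintro ⟨⟨y, b⟩, hb, hy⟩
        have hb' : b = 1 := hb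
        subst hb'
        rfl
      right_inv := fun z => rfl }
  rw [Nat.card_congr e, Nat.card_fun, Nat.card_eq_fintype_card (α := Cy r), card_Cy]

lemma sylow_cst {p : ℕ} [Fact p.Prime] (hpr : p ≠ r) (x₀ : G)
    (P : Sylow p (Subgroup.centralizer ({x₀} : Set G))) :
    ∃ Q : Sylow p (Subgroup.centralizer ({cst r x₀} : Set (Wc G r))),
      Dw r ((P : Subgroup (Subgroup.centralizer ({x₀} : Set G))).map
        (Subgroup.centralizer ({x₀} : Set G)).subtype) =
      (Q : Subgroup (Subgroup.centralizer ({cst r x₀} : Set (Wc G r)))).map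
        (Subgroup.centralizer ({cst r x₀} : Set (Wc G r))).subtype := by
  set D : Subgroup G := (P : Subgroup (Subgroup.centralizer ({x₀} : Set G))).map
        (Subgroup.centralizer ({x₀} : Set G)).subtype with hD
  set K : Subgroup (Wc G r) := Subgroup.centralizer ({cst r x₀} : Set (Wc G r)) with hK
  have hDC : D ≤ Subgroup.centralizer ({x₀} : Set G) := Subgroup.map_subtype_le _
  have hle : Dw r D ≤ K := fun y hy => (mem_cent_cst x₀ y).mpr fun ω => hDC (hy.2 ω)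
  have hcD : Nat.card D = Nat.card (P : Subgroup (Subgroup.centralizer ({x₀} : Set G))) := by
    rw [hD]
    exact Subgroup.card_map_of_injective (Subgroup.subtype_injective _)
  have hcQ : Nat.card ((Dw r D).subgroupOf K) = Nat.card D ^ r := by
    rw [Nat.card_congr (Subgroup.subgroupOfEquivOfLe hle).toEquiv, card_Dw]
  have hcC := (P : Subgroup (Subgroup.centralizer ({x₀} : Set G))).card_mul_index
  have hcK := ((Dw r D).subgroupOf K).card_mul_index
  obtain ⟨n, hn⟩ := IsPGroup.iff_card.mp P.isPGroup'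
  have hn' : Nat.card D = p ^ n := by rw [hcD]; exact hn
  have hidx : ((Dw r D).subgroupOf K).index =
      (P : Subgroup (Subgroup.centralizer ({x₀} : Set G))).index ^ r * r := by
    have h0 : 0 < Nat.card D ^ r := pow_pos Nat.card_pos r
    apply Nat.eq_of_mul_eq_mul_left h0
    rw [hcQ] at hcK
    rw [hcK, hK, card_cent_cst, ← hcC, ← hcD, mul_pow, mul_assoc]
  have hP : IsPGroup p ((Dw r D).subgroupOf K) := by
    apply IsPGroup.of_card (n := n * r)
    rw [hcQ, hn', ← pow_mul]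
  have hnd : ¬ p ∣ ((Dw r D).subgroupOf K).index := by
    rw [hidx]
    intro h
    rcases (Nat.Prime.dvd_mul Fact.out).mp h with h | h
    · exact P.not_dvd_index (Nat.Prime.dvd_of_dvd_pow Fact.out h)
    · exact hpr ((Nat.prime_dvd_prime_iff_eq Fact.out Fact.out).mp h)
  refine ⟨hP.toSylow hnd, ?_⟩
  change Dw r D = ((Dw r D).subgroupOf K).map K.subtype
  rw [Subgroup.map_subgroupOf_eq_of_le hle]

theorem t_BLK : S_CLS → S_CCL → S_BLK := by
  intro hC hL G _ _ p r _ _ hpr O hp B hB hP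
  have hbc : blockCoeff (LX (r := r) B) = EE r B := bc_LX hC hB.irr
  refine ⟨?_, ?_, ?_⟩
  · obtain ⟨θ₀, h0⟩ := hB.nonempty
    have hirr0 : IsIrr (cch θ₀ 1 : Wc G r → ℂ) := (hC G r).2.1 θ₀ (hB.irr _ h0) 1
    have hmem0 : cch θ₀ 1 ∈ LX (r := r) B := Or.inr ⟨θ₀, h0, 1, rfl⟩
    refine ⟨cch θ₀ 1, hirr0, ?_⟩
    ext χ
    constructor
    · intro hχ
      have hχi := LX_irr hC hB.irr χ hχ
      refine ⟨hχi, fun x => ?_⟩
      obtain ⟨c, -, hc⟩ := red_LX hC hL hpr hp hB hP h0 x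
      rw [← red_eq_iff (hχi.omega_mem O x) (hirr0.omega_mem O x), hc _ hχ, hc _ hmem0]
    · rintro ⟨hχi, hx⟩
      have h1 := (red_Om (O := O) hχi (EE_cl hB.irr) (EE_mem hB)).2
      have h2 := (red_Om (O := O) hirr0 (EE_cl hB.irr) (EE_mem hB)).2
      have h3 : red O (Om (EE r B) χ) = red O (Om (EE r B) (cch θ₀ 1)) := by
        rw [h1, h2]
        refine Finset.sum_congr rfl fun K _ => ?_
        rw [(red_eq_iff (hχi.omega_mem O _) (hirr0.omega_mem O _)).mpr (hx _)]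
      rw [Om_EE hC hB.irr hχi, Om_EE hC hB.irr hirr0, if_pos hmem0, red_one] at h3
      by_contra hcon
      rw [if_neg hcon, red_zero] at h3
      exact zero_ne_one h3
  · intro x
    rw [hbc]
    rfl
  · rintro D ⟨x₀, ⟨P, hPD⟩, h1, h2⟩
    obtain ⟨θ₀, h0⟩ := hB.nonempty
    refine ⟨cst r x₀, ?_, ?_, ?_⟩
    · rw [hPD]
      exact sylow_cst hpr x₀ P
    · intro χ hχ
      have hχi := LX_irr hC hB.irr χ hχ
      obtain ⟨c, hc1, hc⟩ := red_LX hC hL hpr hp hB hP h0 (cst r x₀)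
      obtain ⟨n, hn, hc2⟩ := hc1 rfl
      rw [← red_eq_zero_iff (hχi.omega_mem O _), hc _ hχ, hc2]
      refine mul_ne_zero hn (Finset.prod_ne_zero_iff.mpr fun ω _ => ?_)
      rw [Ne, red_eq_zero_iff ((hB.irr _ h0).omega_mem O _)]
      exact h1 θ₀ h0
    · rw [hbc, ← red_eq_zero_iff (EE_mem hB _)]
      have hE : EE r B (cst r x₀) = ∏ _ω : Cy r, blockCoeff B x₀ := by
        unfold EE
        exact if_pos rfl
      rw [hE, red_prod _ _ (fun ω _ => blockCoeff_mem hB _)]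
      refine Finset.prod_ne_zero_iff.mpr fun ω _ => ?_
      rw [Ne, red_eq_zero_iff (blockCoeff_mem hB _)]
      exact h2

end Pool.Agent.Q166.AM
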