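import Pool.Agent.Q166.AM.BLK
import Pool.Agent.Q222.TC.TBC

set_option autoImplicit false

open scoped Classical

noncomputable section

namespace Pool.Agent.Q166.AM

open Pool.Agent.H254R3.IN hiding NN
open Pool.Agent.Q17.WR
open Pool.Agent.Q17.AM

set_option linter.unusedSectionVars false

section grp

variable {H : Type} [Group H] [Fintype H]

/-- grouping of the values of a character by classes -/
lemma group_sum {χ : H → ℂ} (hχ : IsIrr χ) (Q : H → Prop) (hQ : ∀ x y, IsConj x y → Q x → Q y) :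
    ∑ z : H, (if Q z then χ z / χ 1 else 0) =
      ∑ K : ConjClasses H, if Q (rep K) then omega χ (rep K) else 0 := by
  rw [sum_classes]
  refine Finset.sum_congr rfl fun K _ => ?_
  have h1 : ∀ z ∈ Finset.univ.filter (fun z => IsConj (rep K) z),
      (if Q z then χ z / χ 1 else 0) = if Q (rep K) then χ (rep K) / χ 1 else 0 := by
    intro z hz
    have hc := (Finset.mem_filter.mp hz).2
    rw [hχ.isConj hc.symm]
    by_cases h : Q z
    · rw [if_pos h, if_pos (hQ _ _ hc.symm h)]
    · rw [if_neg h, if_neg (fun h' => h (hQ _ _ hc h'))]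
  rw [Finset.sum_congr rfl h1, Finset.sum_const, nsmul_eq_mul]
  have h3 : (Finset.univ.filter (fun g => IsConj (rep K) g)).card =
      Nat.card {y : H // IsConj (rep K) y} := by
    rw [Nat.card_eq_fintype_card, Fintype.card_subtype]
  rw [h3]
  split_ifs
  · unfold omega
    ring
  · rw [mul_zero]

lemma group_mem {O : ValuationSubring ℂ} {χ : H → ℂ} (hχ : IsIrr χ) (Q : H → Prop)
    (hQ : ∀ x y, IsConj x y → Q x → Q y) : ∑ z : H, (if Q z then χ z / χ 1 else 0) ∈ O := by
  rw [group_sum hχ Q hQ]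
  refine sum_mem' _ _ fun K _ => ?_
  split_ifs
  · exact hχ.omega_mem O _
  · exact O.zero_mem

lemma group_nonunits {O : ValuationSubring ℂ} {χ : H → ℂ} (hχ : IsIrr χ) (Q : H → Prop)
    (hQ : ∀ x y, IsConj x y → Q x → Q y) (hn : ∀ z, Q z → omega χ z ∈ O.nonunits) :
    ∑ z : H, (if Q z then χ z / χ 1 else 0) ∈ O.nonunits := by
  have h1 := group_mem (O := O) hχ Q hQ
  rw [← red_eq_zero_iff h1, group_sum hχ Q hQ, red_sum]
  · refine Finset.sum_eq_zero fun K _ => ?_
    split_ifs with h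
    · exact red_eq_zero (hn _ h)
    · exact red_zero
  · intro K _
    split_ifs
    · exact hχ.omega_mem O _
    · exact O.zero_mem

end grp

variable {G : Type} [Group G] [Fintype G] {r : ℕ} [Fact r.Prime]

/-- conjugacy in the wreath product for elements of the base group -/
lemma isConj_base {x : Wc G r} (hx : x.right = 1) (y : Wc G r) :
    IsConj x y ↔ y.right = 1 ∧ ∃ a : Cy r, ∀ ω, IsConj (x.left (a * ω)) (y.left ω) := by
  constructor
  · intro h
    obtain ⟨g, rfl⟩ := isConj_iff.mp h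
    refine ⟨by rw [conj_right]; exact hx, g.right⁻¹, fun ω => ?_⟩
    rw [conj_left _ _ hx]
    exact isConj_iff.mpr ⟨g.left ω, rfl⟩
  · rintro ⟨hy, a, h⟩
    choose c hc using fun ω => isConj_iff.mp (h ω)
    refine isConj_iff.mpr ⟨⟨c, a⁻¹⟩, ?_⟩
    apply SemidirectProduct.ext
    · funext ω
      rw [conj_left _ _ hx]
      simp only [inv_inv]
      exact hc ω
    · rw [conj_right, hx, hy]

/-- the number of the rotations with conjugate components -/
def al (k : Cy r → G) : ℕ :=
  (Finset.univ.filter fun a : Cy r => ∀ ω, IsConj (k (a * ω)) (k ω)).card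

lemma nu_eq (k y : Cy r → G) :
    (Finset.univ.filter fun a : Cy r => ∀ ω, IsConj (k (a * ω)) (y ω)).card =
      if ∃ a : Cy r, ∀ ω, IsConj (k (a * ω)) (y ω) then al k else 0 := by
  split_ifs with h
  · obtain ⟨a₀, h0⟩ := h
    refine Finset.card_equiv (Equiv.mulRight a₀⁻¹) fun a => ?_
    simp only [Finset.mem_filter, Finset.mem_univ, true_and, Equiv.coe_mulRight]
    constructor
    · intro ha ω
      have h1 := ha (a₀⁻¹ * ω)
      have h2 := h0 (a₀⁻¹ * ω)
      rw [mul_inv_cancel_left] at h2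
      rw [mul_assoc]
      exact h1.trans h2.symm
    · intro ha ω
      have h1 := ha (a₀ * ω)
      rw [mul_assoc, inv_mul_cancel_left] at h1
      exact h1.trans (h0 ω)
  · rw [Finset.card_eq_zero, Finset.filter_eq_empty_iff]
    intro a _ ha
    exact h ⟨a, ha⟩

/-- double counting -/
lemma al_sum {Y : Type} [Fintype Y] (k : Cy r → G) (ι : Y → Cy r → G) (F : Y → ℂ) :
    (al k : ℂ) * ∑ y : Y, (if ∃ a : Cy r, ∀ ω, IsConj (k (a * ω)) (ι y ω) then F y else 0) =
      ∑ a : Cy r, ∑ y : Y, if ∀ ω, IsConj (k (a * ω)) (ι y ω) then F y else 0 := by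
  rw [Finset.sum_comm, Finset.mul_sum]
  refine Finset.sum_congr rfl fun y _ => ?_
  rw [← Finset.sum_filter, Finset.sum_const, nu_eq, nsmul_eq_mul]
  split_ifs <;> simp

lemma prod_ite_sum {H : Type} [Fintype H] (R : Cy r → H → Prop) (F : Cy r → H → ℂ) :
    ∑ m : Cy r → H, (if ∀ ω, R ω (m ω) then ∏ ω, F ω (m ω) else 0) =
      ∏ ω, ∑ z : H, if R ω z then F ω z else 0 := by
  rw [Finset.prod_univ_sum, Fintype.piFinset_univ]
  refine Finset.sum_congr rfl fun m _ => ?_
  split_ifs with h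
  · exact Finset.prod_congr rfl fun ω _ => (if_pos (h ω)).symm
  · push Not at h
    obtain ⟨ω, hω⟩ := h
    exact (Finset.prod_eq_zero (Finset.mem_univ ω) (if_neg hω)).symm

lemma al_card {x : Wc G r} (hx : x.right = 1) :
    (al x.left : ℂ) * (Nat.card {y : Wc G r // IsConj x y} : ℂ) =
      r * ∏ ω, (Nat.card {y : G // IsConj (x.left ω) y} : ℂ) := by
  have h1 : (Nat.card {y : Wc G r // IsConj x y} : ℂ) =
      ∑ m : Cy r → G, if ∃ a : Cy r, ∀ ω, IsConj (x.left (a * ω)) (m ω) then 1 else 0 := by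
    have h2 : (Nat.card {y : Wc G r // IsConj x y} : ℂ) =
        ∑ y : Wc G r, if IsConj x y then (1 : ℂ) else 0 := by
      rw [Nat.card_eq_fintype_card, Fintype.card_subtype, ← Finset.sum_filter, Finset.sum_const,
        nsmul_eq_mul, mul_one]
    rw [h2, sum_base]
    · refine Finset.sum_congr rfl fun m _ => ?_
      have h3 : IsConj x (⟨m, 1⟩ : Wc G r) ↔
          ∃ a : Cy r, ∀ ω, IsConj (x.left (a * ω)) (m ω) := by
        rw [isConj_base hx]
        exact ⟨fun h => h.2, fun h => ⟨rfl, h⟩⟩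
      by_cases h : IsConj x (⟨m, 1⟩ : Wc G r)
      · rw [if_pos h, if_pos (h3.mp h)]
      · rw [if_neg h, if_neg (fun h' => h (h3.mpr h'))]
    · intro y hy
      rw [if_neg]
      intro h
      exact hy ((isConj_base hx y).mp h).1
  rw [h1, al_sum x.left (fun m : Cy r → G => m) (fun _ => (1 : ℂ))]
  have h4 : ∀ a : Cy r, ∑ m : Cy r → G,
      (if ∀ ω, IsConj (x.left (a * ω)) (m ω) then (1 : ℂ) else 0) =
      ∏ ω, (Nat.card {y : G // IsConj (x.left ω) y} : ℂ) := by
    intro a
    have h5 := prod_ite_sum (fun (ω : Cy r) (z : G) => IsConj (x.left (a * ω)) z)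
      (fun _ _ => (1 : ℂ))
    simp only [Finset.prod_const_one] at h5
    rw [h5]
    have h6 : ∀ ω : Cy r, ∑ z : G, (if IsConj (x.left (a * ω)) z then (1 : ℂ) else 0) =
        (Nat.card {y : G // IsConj (x.left (a * ω)) y} : ℂ) := by
      intro ω
      rw [Nat.card_eq_fintype_card, Fintype.card_subtype, ← Finset.sum_filter, Finset.sum_const,
        nsmul_eq_mul, mul_one]
    rw [Finset.prod_congr rfl fun ω _ => h6 ω]
    exact Equiv.prod_comp (Equiv.mulLeft a)
      (fun ω => (Nat.card {y : G // IsConj (x.left ω) y} : ℂ))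
  rw [Finset.sum_congr rfl fun a _ => h4 a, Finset.sum_const, Finset.card_univ, card_Cy,
    nsmul_eq_mul]

lemma al_mul {x : Wc G r} (hx : x.right = 1) {n : ℕ}
    (hn : Nat.card {y : Wc G r // IsConj x y} = n * ∏ ω, Nat.card {y : G // IsConj (x.left ω) y}) :
    al x.left * n = r := by
  have h1 := al_card hx
  rw [hn] at h1
  have h2 : (∏ ω, Nat.card {y : G // IsConj (x.left ω) y}) ≠ 0 :=
    Finset.prod_ne_zero_iff.mpr fun ω _ => (card_class_pos _).ne'
  have h3 : al x.left * (n * ∏ ω, Nat.card {y : G // IsConj (x.left ω) y}) =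
      r * ∏ ω, Nat.card {y : G // IsConj (x.left ω) y} := by
    exact_mod_cast h1
  rw [← mul_assoc] at h3
  exact Nat.eq_of_mul_eq_mul_right (Nat.pos_of_ne_zero h2) h3

/-- the values of the members of `LX b` on the base group -/
lemma LX_base {H : Type} [Group H] [Fintype H] {b : Set (H → ℂ)} (hb : ∀ χ ∈ b, IsIrr χ)
    {θ : Wc H r → ℂ} (hθ : θ ∈ LX (r := r) b) : ∃ f : Cy r → H → ℂ, (∀ ω, f ω ∈ b) ∧
      ∀ m : Cy r → H, (r : ℂ) * (θ ⟨m, 1⟩ / θ 1) =
        ∑ a : Cy r, ∏ ω, (f (a * ω) (m ω) / f (a * ω) 1) := by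
  have hr : (r : ℂ) ≠ 0 := r_ne
  rcases hθ with ⟨f, hf, hn, rfl⟩ | ⟨θ', hθ', l, rfl⟩
  · refine ⟨f, hf, fun m => ?_⟩
    rw [nch_one]
    have h4 : (∏ ω, f ω 1) ≠ 0 := Finset.prod_ne_zero_iff.mpr fun ω _ => (hb _ (hf ω)).one_ne
    have h1 : ∀ a : Cy r, ∏ ω, (f (a * ω) (m ω) / f (a * ω) 1) =
        (∏ ω, f (a * ω) (m ω)) / ∏ ω, f ω 1 := by
      intro a
      rw [Finset.prod_div_distrib]
      congr 1
      exact Equiv.prod_comp (Equiv.mulLeft a) (fun ω => f ω 1)
    rw [Finset.sum_congr rfl fun a _ => h1 a, ← Finset.sum_div]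
    have h2 : nch f (⟨m, 1⟩ : Wc H r) = ∑ a : Cy r, ∏ ω, f (a * ω) (m ω) := by
      unfold nch
      exact if_pos rfl
    rw [h2]
    field_simp
  · refine ⟨fun _ => θ', fun _ => hθ', fun m => ?_⟩
    rw [cch_one, Finset.sum_const, Finset.card_univ, card_Cy, nsmul_eq_mul,
      Finset.prod_div_distrib]
    congr 2
    unfold cch
    exact if_pos rfl

section red

variable {O : ValuationSubring ℂ} {B : Set (G → ℂ)}

lemma LX_nonunits (hL : S_CCL) (hB : ∀ χ ∈ B, IsIrr χ) (hP : Pos O B) {x : Wc G r}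
    (hx : x.right ≠ 1) : ∀ χ ∈ LX (r := r) B, omega χ x ∈ O.nonunits := by
  rintro χ (⟨f, hf', hn', rfl⟩ | ⟨θ, hθ', l, rfl⟩)
  · rw [((hL G r).2 x hx).1 f]
    exact O.nonunits.zero_mem
  · have hi := hB _ hθ'
    rw [((hL G r).2 x hx).2 θ l hi.one_ne]
    have h1 : (Nat.card G : ℂ) / θ 1 ∈ O.nonunits := hP θ hθ'
    have h2 : r - 1 ≠ 0 := by
      have := (Fact.out : r.Prime).two_le
      omega
    have h3 : ((Nat.card G : ℂ) / θ 1) ^ (r - 1) ∈ O.nonunits := by
      obtain ⟨k, hk⟩ := Nat.exists_eq_succ_of_ne_zero h2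
      rw [hk, pow_succ]
      exact nonunits_mul (pow_mem (nonunits_mem h1) k) h1
    have h4 := nonunits_mul (l_mem O l x.right) h3
    have h5 := nonunits_mul (hi.omega_mem O ((x ^ r).left 1)) h4
    rwa [mul_comm] at h5

end red

lemma fs {H : Type} [Fintype H] (P : H → Prop) (F : H → ℂ) :
    ∑ᶠ y : {y : H // P y}, F y = ∑ z, if P z then F z else 0 := by
  rw [finsum_eq_sum_of_fintype, ← Finset.sum_filter]
  exact (Finset.sum_subtype (Finset.univ.filter P) (by simp) F).symm

theorem t_COR : S_CLS → S_CCL → S_BLK → S_COR := by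
  intro hC hL hK G _ _ p r _ _ hpr O hp B D b hB hPB hPb hD hbr e he1 he2
  have : Fintype (Pool.Agent.Q17.AM.NN D) := Fintype.ofFinite _
  have : Fintype (Pool.Agent.Q17.AM.NN (Dw r D)) := Fintype.ofFinite _
  obtain ⟨hb, hbD, hcor⟩ := hbr
  have hBK := hK G p r hpr O hp B hB hPB
  have hbK := hK (Pool.Agent.Q17.AM.NN D) p r hpr O hp b hb hPb
  have hset : {θ : Pool.Agent.Q17.AM.NN (Dw r D) → ℂ | (fun x => θ (e x)) ∈ LX (r := r) b} =
      Pool.Agent.Q222.TC.tb e.symm (LX (r := r) b) := by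
    ext θ
    constructor
    · intro h
      refine ⟨fun x => θ (e x), h, ?_⟩
      funext y
      change θ y = θ (e (e.symm y))
      rw [e.apply_symm_apply]
    · rintro ⟨θ₀, h, rfl⟩
      change (fun x => θ₀ (e.symm (e x))) ∈ LX (r := r) b
      simpa using h
  rw [hset]
  refine ⟨Pool.Agent.Q222.TC.tb_block e.symm hbK.1, ?_, ?_⟩
  · have h1 := Pool.Agent.Q222.TC.tb_defect e.symm (hbK.2.2 _ hbD)
    have h2 : (Dw r (D.subgroupOf (Pool.Agent.Q17.AM.NN D))).comap e.symm.toMonoidHom =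
        (Dw r D).subgroupOf (Pool.Agent.Q17.AM.NN (Dw r D)) := by
      ext y
      obtain ⟨z, rfl⟩ := e.surjective y
      rw [Subgroup.mem_comap, Subgroup.mem_subgroupOf]
      change e.symm (e z) ∈ _ ↔ _
      rw [e.symm_apply_apply, mem_Dw, mem_Dw, he1]
      refine and_congr_right fun _ => forall_congr' fun ω => ?_
      rw [he2, Subgroup.mem_subgroupOf]
    rw [← h2]
    exact h1
  · rintro χ hχ θ ⟨θ₀, hθ₀, rfl⟩ x
    have hχi : IsIrr χ := hBK.1.irr χ hχ
    have hθi : IsIrr θ₀ := hbK.1.irr θ₀ hθ₀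
    let Q : Wc (Pool.Agent.Q17.AM.NN D) r → Prop := fun z => IsConj x (e z : Wc G r)
    have hQ : ∀ z z', IsConj z z' → Q z → Q z' := by
      intro z z' h hz
      have h1 : IsConj (e z) (e z') := e.toMonoidHom.map_isConj h
      have h2 : IsConj ((e z : Wc G r)) (e z' : Wc G r) :=
        (Pool.Agent.Q17.AM.NN (Dw r D)).subtype.map_isConj h1
      exact IsConj.trans hz h2
    have hfs : (∑ᶠ y : {y : Pool.Agent.Q17.AM.NN (Dw r D) // IsConj x (y : Wc G r)},
        (fun x => θ₀ (e.symm x)) y / (fun x => θ₀ (e.symm x)) 1) =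
        ∑ z, if Q z then θ₀ z / θ₀ 1 else 0 := by
      rw [fs (fun y : Pool.Agent.Q17.AM.NN (Dw r D) => IsConj x (y : Wc G r))
        (fun y => θ₀ (e.symm y) / θ₀ (e.symm 1)), ← Equiv.sum_comp e.toEquiv]
      refine Finset.sum_congr rfl fun z _ => ?_
      have h1 : e.symm (e.toEquiv z) = z := e.symm_apply_apply z
      rw [h1, map_one]
      rfl
    have hS : (∑ z, if Q z then θ₀ z / θ₀ 1 else 0) ∈ O := group_mem hθi Q hQ
    rw [hfs, ← red_eq_iff (hχi.omega_mem O x) hS]
    by_cases hx : x.right = 1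
    · obtain ⟨χ₀, h0⟩ := hB.nonempty
      obtain ⟨n, hn, -, -, hn2⟩ := (hL G r).1 x hx
      have hal := al_mul hx hn
      have hc0 : (cch χ₀ 1 : Wc G r → ℂ) ∈ LX (r := r) B := Or.inr ⟨χ₀, h0, 1, rfl⟩
      have hmem0 : ∀ y : G, omega χ₀ y ∈ O := fun y => (hB.irr _ h0).omega_mem O y
      have hr0 : ((r : ℕ) : RF O) ≠ 0 := by
        rw [← red_natCast]
        intro h
        rw [red_nat_eq_zero_iff hp] at h
        exact hpr ((Nat.prime_dvd_prime_iff_eq Fact.out Fact.out).mp h)
      have hal' : ((al x.left : ℕ) : RF O) * (n : RF O) = (r : RF O) := by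
        exact_mod_cast congrArg (fun k : ℕ => (k : RF O)) hal
      have hal0 : ((al x.left : ℕ) : RF O) ≠ 0 := by
        intro h
        rw [h, zero_mul] at hal'
        exact hr0 hal'.symm
      rw [hBK.1.red_eq hχ hc0 x, hn2 χ₀ 1, red_mul (natCast_mem' n)
        (prod_mem fun ω _ => hmem0 _), red_prod _ _ (fun ω _ => hmem0 _), red_natCast]
      obtain ⟨f, hf, hfm⟩ := LX_base hb.irr hθ₀
      have hSb : (∑ z, if Q z then θ₀ z / θ₀ 1 else 0) =
          ∑ m : Cy r → Pool.Agent.Q17.AM.NN D,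
            if ∃ a : Cy r, ∀ ω, IsConj (x.left (a * ω)) (m ω : G) then
              θ₀ ⟨m, 1⟩ / θ₀ 1 else 0 := by
        rw [sum_base]
        · refine Finset.sum_congr rfl fun m _ => ?_
          have h3 : Q (⟨m, 1⟩ : Wc (Pool.Agent.Q17.AM.NN D) r) ↔
              ∃ a : Cy r, ∀ ω, IsConj (x.left (a * ω)) (m ω : G) := by
            change IsConj x (e ⟨m, 1⟩ : Wc G r) ↔ _
            rw [isConj_base hx, he1]
            constructor
            · rintro ⟨-, a, h⟩
              refine ⟨a, fun ω => ?_⟩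
              have := h ω
              rwa [he2] at this
            · rintro ⟨a, h⟩
              refine ⟨rfl, a, fun ω => ?_⟩
              rw [he2]
              exact h ω
          by_cases h : Q (⟨m, 1⟩ : Wc (Pool.Agent.Q17.AM.NN D) r)
          · rw [if_pos h, if_pos (h3.mp h)]
          · rw [if_neg h, if_neg (fun h' => h (h3.mpr h'))]
        · intro z hz
          rw [if_neg]
          intro h
          have h4 := ((isConj_base hx _).mp h).1
          rw [he1] at h4
          exact hz h4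
      let t : Cy r → Cy r → Cy r → ℂ := fun a a' ω =>
        ∑ z : Pool.Agent.Q17.AM.NN D, if IsConj (x.left (a * ω)) (z : G) then
          f (a' * ω) z / f (a' * ω) 1 else 0
      have ht : ∀ a a' ω, t a a' ω ∈ O ∧ red O (t a a' ω) = red O (omega χ₀ (x.left (a * ω))) := by
        intro a a' ω
        have h1 : t a a' ω ∈ O := by
          refine group_mem (hb.irr _ (hf _))
            (fun z : Pool.Agent.Q17.AM.NN D => IsConj (x.left (a * ω)) (z : G)) ?_
          intro z z' h hz
          exact IsConj.trans hz ((Pool.Agent.Q17.AM.NN D).subtype.map_isConj h)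
        refine ⟨h1, ?_⟩
        have h2 := hcor χ₀ h0 (f (a' * ω)) (hf _) (x.left (a * ω))
        rw [fs (fun y : Pool.Agent.Q17.AM.NN D => IsConj (x.left (a * ω)) (y : G))
          (fun y => f (a' * ω) y / f (a' * ω) 1)] at h2
        exact ((red_eq_iff (hmem0 _) h1).mpr h2).symm
      have hmain : (al x.left : ℂ) * ((r : ℂ) * ∑ z, if Q z then θ₀ z / θ₀ 1 else 0) =
          ∑ a : Cy r, ∑ a' : Cy r, ∏ ω, t a a' ω := by
        rw [hSb, Finset.mul_sum]
        have h1 : ∀ m : Cy r → Pool.Agent.Q17.AM.NN D,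
            (r : ℂ) * (if ∃ a : Cy r, ∀ ω, IsConj (x.left (a * ω)) (m ω : G) then
              θ₀ ⟨m, 1⟩ / θ₀ 1 else 0) =
            if ∃ a : Cy r, ∀ ω, IsConj (x.left (a * ω)) (m ω : G) then
              ∑ a' : Cy r, ∏ ω, (f (a' * ω) (m ω) / f (a' * ω) 1) else 0 := by
          intro m
          rw [mul_ite, mul_zero, hfm]
        rw [Finset.sum_congr rfl fun m _ => h1 m]
        rw [al_sum x.left (fun (m : Cy r → Pool.Agent.Q17.AM.NN D) ω => (m ω : G))]
        refine Finset.sum_congr rfl fun a _ => ?_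
        have h2 : ∀ m : Cy r → Pool.Agent.Q17.AM.NN D,
            (if ∀ ω, IsConj (x.left (a * ω)) (m ω : G) then
              ∑ a' : Cy r, ∏ ω, (f (a' * ω) (m ω) / f (a' * ω) 1) else 0) =
            ∑ a' : Cy r, if ∀ ω, IsConj (x.left (a * ω)) (m ω : G) then
              ∏ ω, (f (a' * ω) (m ω) / f (a' * ω) 1) else 0 := by
          intro m
          split_ifs
          · rfl
          · simp
        rw [Finset.sum_congr rfl fun m _ => h2 m, Finset.sum_comm]
        refine Finset.sum_congr rfl fun a' _ => ?_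
        exact prod_ite_sum (fun (ω : Cy r) (z : Pool.Agent.Q17.AM.NN D) =>
          IsConj (x.left (a * ω)) (z : G)) (fun ω z => f (a' * ω) z / f (a' * ω) 1)
      have h5 := congrArg (red O) hmain
      rw [red_mul (natCast_mem' _) (O.mul_mem _ _ (natCast_mem' _) hS),
        red_mul (natCast_mem' _) hS, red_natCast, red_natCast, red_sum _ _
        (fun a _ => sum_mem' _ _ fun a' _ => prod_mem fun ω _ => (ht a a' ω).1)] at h5
      have h6 : ∀ a : Cy r, red O (∑ a' : Cy r, ∏ ω, t a a' ω) =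
          (r : RF O) * ∏ ω, red O (omega χ₀ (x.left ω)) := by
        intro a
        rw [red_sum _ _ (fun a' _ => prod_mem fun ω _ => (ht a a' ω).1)]
        have h7 : ∀ a' : Cy r, red O (∏ ω, t a a' ω) = ∏ ω, red O (omega χ₀ (x.left ω)) := by
          intro a'
          rw [red_prod _ _ (fun ω _ => (ht a a' ω).1),
            Finset.prod_congr rfl fun ω _ => (ht a a' ω).2]
          exact Equiv.prod_comp (Equiv.mulLeft a) (fun ω => red O (omega χ₀ (x.left ω)))
        rw [Finset.sum_congr rfl fun a' _ => h7 a', Finset.sum_const, Finset.card_univ, card_Cy,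
          nsmul_eq_mul]
      rw [Finset.sum_congr rfl fun a _ => h6 a, Finset.sum_const, Finset.card_univ, card_Cy,
        nsmul_eq_mul] at h5
      have h8 : ((al x.left : ℕ) : RF O) * ((r : RF O) *
          red O (∑ z, if Q z then θ₀ z / θ₀ 1 else 0)) =
          ((al x.left : ℕ) : RF O) * ((r : RF O) *
            ((n : RF O) * ∏ ω, red O (omega χ₀ (x.left ω)))) := by
        rw [h5]
        rw [← hal']
        ring
      exact (mul_left_cancel₀ hr0 (mul_left_cancel₀ hal0 h8)).symm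
    · rw [red_eq_zero (LX_nonunits hL hB.irr hPB hx χ hχ), red_eq_zero]
      apply group_nonunits hθi Q hQ
      intro z hz
      apply LX_nonunits hL hb.irr hPb _ θ₀ hθ₀
      obtain ⟨g, hg⟩ := isConj_iff.mp hz
      have h1 := congrArg (fun y : Wc G r => y.right) hg
      simp only [conj_right] at h1
      rw [he1] at h1
      rw [← h1]
      exact hx

end Pool.Agent.Q166.AM
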